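import Pool.Agent.Helper73.F2.St

/-!
Project F2 (MP_7b75b3_co), module MAX: a maximal family of protected blocks.
-/

set_option autoImplicit false

namespace Pool.Agent.Helper99.F2

open _root_.F2 Finset

theorem chain_seq {κ : Type} (r : κ → κ → Prop) (i j : κ) (h : Relation.ReflTransGen r i j) :
    ∃ (k : ℕ) (B : ℕ → κ), B 0 = i ∧ B k = j ∧ ∀ l < k, r (B l) (B (l + 1)) := by
  induction h with
  | refl => exact ⟨0, fun _ => i, rfl, rfl, fun l hl => absurd hl (Nat.not_lt_zero l)⟩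
  | @tail c d _ hcd ih =>
    obtain ⟨k, B, hB0, hBk, hB⟩ := ih
    refine ⟨k + 1, fun l => if l ≤ k then B l else d, by simp [hB0], by simp, ?_⟩
    intro l hl
    rcases Nat.lt_succ_iff_lt_or_eq.mp hl with h | h
    · simp only [h.le, if_true, Nat.succ_le_of_lt h]
      exact hB l h
    · subst h
      simp only [le_refl, if_true]
      rw [if_neg (by omega), hBk]
      exact hcd

theorem hMAX : StMAX := by
  classical
  intro hUNI hCNT hPTH hPSH hXCH hSTP V κ _ _ _ _ G b X₀ hFour hThin hMin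
  let Q : ℕ → Prop := fun m => ∃ (X : Finset V) (P : Finset κ),
    MinGood G b X ∧ Prot G b X P ∧ P.card = m
  have hQ0 : Q 0 := by
    refine ⟨X₀, ∅, hMin, ⟨?_, ?_, ?_⟩, card_empty⟩
    · intro i hi
      exact absurd hi (notMem_empty i)
    · intro a ha
      exact absurd ha.1 (notMem_empty _)
    · intro a a' ha
      exact absurd ha.1 (notMem_empty _)
  have hQspec : Q (Nat.findGreatest Q (Fintype.card κ)) :=
    Nat.findGreatest_spec (Nat.zero_le _) hQ0
  obtain ⟨X, P, hX, hP, hPc⟩ := hQspec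
  refine ⟨X, P, hX, hP, ?_⟩
  intro i₀ hi₀
  by_contra hne1
  have hGood : Good G b X := hX.1
  have h2 : 2 ≤ mul b X i₀ := by
    obtain ⟨x, hx, hbx⟩ := hGood.hit i₀
    have hpos : 0 < mul b X i₀ := by
      unfold mul
      rw [card_pos]
      exact ⟨x, mem_filter.mpr ⟨hx, hbx⟩⟩
    omega
  let r : κ → κ → Prop := fun i j => ∃ x v, Allow G b X P x v ∧ b x = i ∧ b v = j
  let S : Finset κ := univ.filter (fun j => Relation.ReflTransGen r i₀ j)
  have hmemS : ∀ j, j ∈ S ↔ Relation.ReflTransGen r i₀ j := by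
    intro j
    simp [S]
  have hSclosed : ∀ x ∈ X, b x ∈ S → ∀ v, Allow G b X P x v → b v ∈ S := by
    intro x _ hxS v hv
    rw [hmemS] at hxS ⊢
    exact hxS.tail ⟨x, v, hv, rfl, rfl⟩
  have hSuniq : ∀ x ∈ X, b x ∈ S → Uniq G X x := by
    intro x hx hxS
    rw [hmemS] at hxS
    obtain ⟨k, B, hB0, hBk, hB⟩ := chain_seq r i₀ (b x) hxS
    refine hUNI hXCH V κ G b k X hX B (by rw [hB0]; exact h2) ?_ x hx hBk.symm
    intro i hi
    obtain ⟨y, v, hyv, hy, hv⟩ := hB i hi
    exact ⟨y, hyv.1, hy, v, hyv.2.1.reachable, hv⟩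
  obtain ⟨j, hjS, hjP, hj1, hjz⟩ := hCNT V κ G b X P S i₀ hFour hGood hP
    ((hmemS i₀).mpr Relation.ReflTransGen.refl) hi₀ h2 hSclosed hSuniq
  have hij : i₀ ≠ j := by
    intro h
    rw [← h] at hj1
    exact hne1 hj1
  obtain ⟨s, B, hs1, hB0, hBs, hBr, hBinj, hBshort⟩ := hPTH κ r i₀ j hij ((hmemS j).mp hjS)
  obtain ⟨x₀, -, -⟩ := hGood.hit i₀
  have hVne : Nonempty V := ⟨x₀⟩
  have hBr' : ∀ k, k < s → ∃ x v, Allow G b X P x v ∧ b x = B k ∧ b v = B (k + 1) := hBr
  choose! x v hxv using hBr'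
  have hBS : ∀ k, k ≤ s → B k ∈ S := by
    intro k
    induction k with
    | zero => intro _; rw [hmemS, hB0]
    | succ k ih =>
      intro hk
      have h1 := ih (by omega)
      rw [hmemS] at h1 ⊢
      exact h1.tail (hBr k (by omega))
  have hbx0 : b (x 0) = i₀ := by rw [(hxv 0 (by omega)).2.1, hB0]
  have hHot : Hot G b X P (b (x 0)) := by
    rw [hbx0]
    exact ⟨hX, fun i hi _ => hP.two i hi, fun _ => h2, fun h => absurd h hi₀, hP.near, hP.sep⟩
  obtain ⟨X', hX', hP'⟩ := hPSH hXCH hSTP V κ G b P j hThin hjP s X x v hs1 hHot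
    (fun i hi => ⟨(hxv i hi).1, hSuniq (x i) (hxv i hi).1.1 (by
      rw [(hxv i hi).2.1]
      exact hBS i hi.le)⟩)
    (fun i hi => by rw [(hxv i (by omega)).2.2, (hxv (i + 1) hi).2.1])
    (by
      rw [(hxv (s - 1) (by omega)).2.2, Nat.sub_add_cancel hs1, hBs])
    (fun i hi k hk h => by
      rw [(hxv i hi).2.1, (hxv k hk).2.1] at h
      exact hBinj i hi.le k hk.le h)
    (fun i hi h => by
      rw [(hxv i hi).2.1, ← hBs] at h
      have := hBinj i hi.le s le_rfl h
      omega)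
    (fun i hi z hz hA => hBshort i hi ⟨x i, z, hA, (hxv i (by omega)).2.1, hz⟩)
    hj1
    (fun z hz hzX => by
      obtain ⟨y, hy, hyS, hyz⟩ := hjz z hz hzX
      exact ⟨y, hy, hyz, hSuniq y hy hyS⟩)
  have hc : (insert j P).card = P.card + 1 := card_insert_of_notMem hjP
  have hQ1 : Q (P.card + 1) := ⟨X', insert j P, hX', hP', hc⟩
  have hle : P.card + 1 ≤ Fintype.card κ := by
    rw [← hc]
    exact card_le_univ _
  have := Nat.le_findGreatest hle hQ1
  omega

end Pool.Agent.Helper99.F2
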